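import Pool.Agent.Helper95.KZ.Goals

/-! Project KZ (MP_266b34_co), packet PRE. -/

set_option autoImplicit false

namespace Pool.Agent.Helper80.KZ

open Pool.Agent.Helper95.KZ

universe u

theorem centr {Γ : Type u} [Group Γ] (K : Subgroup Γ) (hn : K.Normal) (hf : (K : Set Γ).Finite) :
    ∃ N : ℕ, 0 < N ∧ ∀ g : Γ, ∀ k ∈ K, g ^ N * k = k * g ^ N := by
  have hKf : Finite K := hf
  let ρ : Γ →* MulAut K := MulAut.conjNormal
  have hfin : Finite (MulAut K) := Finite.of_injective (fun f : MulAut K => (f : K → K))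
    DFunLike.coe_injective
  have hki : ρ.ker.FiniteIndex := inferInstance
  refine ⟨ρ.ker.index, Nat.pos_of_ne_zero hki.index_ne_zero, ?_⟩
  intro g k hk
  have h1 : g ^ ρ.ker.index ∈ ρ.ker := Subgroup.pow_index_mem _ g
  rw [MonoidHom.mem_ker] at h1
  have h2 := congrArg (fun f : MulAut K => ((f ⟨k, hk⟩ : K) : Γ)) h1
  have h3 : g ^ ρ.ker.index * k * (g ^ ρ.ker.index)⁻¹ = k := by
    have h4 : ((MulAut.conjNormal (g ^ ρ.ker.index) (⟨k, hk⟩ : K) : K) : Γ) = k := h2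
    rw [MulAut.conjNormal_apply] at h4
    exact h4
  calc g ^ ρ.ker.index * k = g ^ ρ.ker.index * k * (g ^ ρ.ker.index)⁻¹ * g ^ ρ.ker.index := by
        group
    _ = k * g ^ ρ.ker.index := by rw [h3]

theorem pre : PreStmt.{u} := by
  intro Γ _ K hKn hKf ⟨A, hA, ⟨e⟩⟩
  obtain ⟨N, hN, hcen⟩ := centr K hKn hKf
  set s : A := e.symm (Multiplicative.ofAdd (1, 0)) with hs
  set t : A := e.symm (Multiplicative.ofAdd (0, 1)) with ht
  have hes : e s = Multiplicative.ofAdd (1, 0) := by rw [hs, MulEquiv.apply_symm_apply]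
  have het : e t = Multiplicative.ofAdd (0, 1) := by rw [ht, MulEquiv.apply_symm_apply]
  have hcomm : ∀ x y : A, x * y = y * x := by
    intro x y
    apply e.injective
    rw [map_mul, map_mul, mul_comm]
  have hval : ∀ i j : ℤ, e (s ^ i * t ^ j) = Multiplicative.ofAdd (i, j) := by
    intro i j
    rw [map_mul, map_zpow, map_zpow, hes, het]
    apply Multiplicative.toAdd.injective
    rw [toAdd_mul, toAdd_zpow, toAdd_zpow]
    ext <;> simp
  have hrep : ∀ x : A, ∃ i j : ℤ, x = s ^ i * t ^ j := by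
    intro x
    refine ⟨(Multiplicative.toAdd (e x)).1, (Multiplicative.toAdd (e x)).2, ?_⟩
    apply e.injective
    rw [hval]
    rfl
  have hN' : (N : ℤ) ≠ 0 := by omega
  have hNpos : (0 : ℤ) < N := by omega
  refine ⟨(s : Γ) ^ N, (t : Γ) ^ N, ?_, ?_, ?_, ?_, ?_⟩
  · have := congrArg (fun x : A => (x : Γ)) (hcomm (s ^ N) (t ^ N))
    simpa using this
  · intro k hk
    exact hcen _ k hk
  · intro k hk
    exact hcen _ k hk
  · intro i j hij
    have h1 : s ^ ((N : ℤ) * i) * t ^ ((N : ℤ) * j) = 1 := by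
      apply Subtype.ext
      rw [Subgroup.coe_mul, Subgroup.coe_zpow, Subgroup.coe_zpow, Subgroup.coe_one, zpow_mul,
        zpow_mul, zpow_natCast, zpow_natCast]
      exact hij
    have h2 := congrArg (fun x => Multiplicative.toAdd (e x)) h1
    simp only [hval, map_one, toAdd_ofAdd, toAdd_one] at h2
    have h3 := congrArg Prod.fst h2
    have h4 := congrArg Prod.snd h2
    simp only [Prod.fst_zero, Prod.snd_zero] at h3 h4
    exact ⟨(mul_eq_zero.1 h3).resolve_left hN', (mul_eq_zero.1 h4).resolve_left hN'⟩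
  · have : Finite (Γ ⧸ A) := inferInstance
    refine ⟨Set.range (fun p : (Γ ⧸ A) × (Fin N × Fin N) =>
      (s : Γ) ^ (p.2.1 : ℕ) * (t : Γ) ^ (p.2.2 : ℕ) * p.1.out⁻¹), Set.finite_range _, ?_⟩
    intro g
    obtain ⟨x, hx⟩ := QuotientGroup.mk_out_eq_mul A g⁻¹
    obtain ⟨m, n, hmn⟩ := hrep x
    have hx1 := Int.emod_nonneg m hNpos.ne'
    have hx2 := Int.emod_lt_of_pos m hNpos
    have hy1 := Int.emod_nonneg n hNpos.ne'
    have hy2 := Int.emod_lt_of_pos n hNpos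
    have hx3 := Int.mul_ediv_add_emod m N
    have hy3 := Int.mul_ediv_add_emod n N
    let r : Fin N := ⟨(m % N).toNat, by omega⟩
    let r' : Fin N := ⟨(n % N).toNat, by omega⟩
    refine ⟨m / N, n / N, _, ⟨((QuotientGroup.mk g⁻¹ : Γ ⧸ A), (r, r')), rfl⟩, ?_⟩
    change g = ((s : Γ) ^ N) ^ (m / N) * ((t : Γ) ^ N) ^ (n / N) *
      ((s : Γ) ^ (r : ℕ) * (t : Γ) ^ (r' : ℕ) * (QuotientGroup.mk g⁻¹ : Γ ⧸ A).out⁻¹)
    have hr : ((r : ℕ) : ℤ) = m % N := Int.toNat_of_nonneg hx1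
    have hr' : ((r' : ℕ) : ℤ) = n % N := Int.toNat_of_nonneg hy1
    have h1 : x = (s ^ N) ^ (m / N) * (t ^ N) ^ (n / N) * (s ^ (r : ℕ) * t ^ (r' : ℕ)) := by
      have es : s ^ m = (s ^ N) ^ (m / N) * s ^ (r : ℕ) := by
        rw [← zpow_natCast s (r : ℕ), hr, ← zpow_natCast s N, ← zpow_mul, ← zpow_add, hx3]
      have et : t ^ n = (t ^ N) ^ (n / N) * t ^ (r' : ℕ) := by
        rw [← zpow_natCast t (r' : ℕ), hr', ← zpow_natCast t N, ← zpow_mul, ← zpow_add, hy3]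
      rw [hmn, es, et]
      calc (s ^ N) ^ (m / N) * s ^ (r : ℕ) * ((t ^ N) ^ (n / N) * t ^ (r' : ℕ))
          = (s ^ N) ^ (m / N) * (s ^ (r : ℕ) * (t ^ N) ^ (n / N)) * t ^ (r' : ℕ) := by
            simp only [mul_assoc]
        _ = _ := by rw [hcomm (s ^ (r : ℕ)) ((t ^ N) ^ (n / N))]; simp only [mul_assoc]
    have h2 : (x : Γ) = ((s : Γ) ^ N) ^ (m / N) * ((t : Γ) ^ N) ^ (n / N) *
        ((s : Γ) ^ (r : ℕ) * (t : Γ) ^ (r' : ℕ)) := by
      have := congrArg (fun y : A => (y : Γ)) h1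
      simpa using this
    rw [hx, ← mul_assoc, ← h2]
    group

end Pool.Agent.Helper80.KZ
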